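import Pool.Agent.helper94.AP.SpecU

/-!
# Row ap:UBK (MP_16912e_nt): the mean value of `kap` is bounded
-/

set_option autoImplicit false

namespace Pool.Agent.AP

open Finset

theorem UBK_split (s : Finset ℕ) (f : ℕ → ℝ) :
    ∑ x ∈ s, f x = ∑ x ∈ s.filter (fun x => x ≡ 0 [MOD 2]), f x +
      ∑ x ∈ s.filter (fun x => x ≡ 1 [MOD 2]), f x := by
  rw [← Finset.sum_filter_add_sum_filter_not s (fun x => x ≡ 0 [MOD 2]) f]
  congr 1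
  refine Finset.sum_congr ?_ fun _ _ => rfl
  ext x
  rw [Finset.mem_filter, Finset.mem_filter]
  unfold Nat.ModEq
  constructor
  · rintro ⟨h1, h2⟩
    exact ⟨h1, by omega⟩
  · rintro ⟨h1, h2⟩
    exact ⟨h1, by omega⟩

theorem UBK_rad (y n : ℕ) (h : Nat.Coprime y n) : Nat.Coprime (rad 2 y) n := by
  refine Nat.Coprime.coprime_dvd_left ?_ h
  refine dvd_trans ?_ (Nat.prod_primeFactors_dvd y)
  unfold rad
  exact Finset.prod_dvd_prod_of_subset _ _ _ (Finset.filter_subset _ _)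

theorem UBK (hBIL : BIL_stmt) (hKAP : KAP_stmt) : UBK_stmt := by
  intro η hη
  obtain ⟨c, N₀, hc, h⟩ := hBIL 2 2 le_rfl (by norm_num) (by
    intro q hq
    constructor
    · intro h
      exact Nat.le_of_dvd (by norm_num) h
    · intro h
      have := hq.two_le
      have h2 : q = 2 := by omega
      rw [h2]) η hη
  refine ⟨c, max N₀ (max 1 ((2 : ℝ) ^ (1 / c))), hc, ?_⟩
  intro N Z V hN hZ hZN hV hVN m hm hmc
  have hN0 : N₀ ≤ N := (le_max_left _ _).trans hN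
  have hN1 : 1 ≤ N := ((le_max_left _ _).trans (le_max_right _ _)).trans hN
  have hN2 : (2 : ℝ) ^ (1 / c) ≤ N := ((le_max_right _ _).trans (le_max_right _ _)).trans hN
  have hNc : (2 : ℝ) ≤ N ^ c := by
    have h1 : ((2 : ℝ) ^ (1 / c)) ^ c ≤ N ^ c :=
      Real.rpow_le_rpow (Real.rpow_nonneg (by norm_num) _) hN2 hc.le
    rw [← Real.rpow_mul (by norm_num), one_div, inv_mul_cancel₀ hc.ne', Real.rpow_one] at h1
    exact h1
  have hNc' : N ^ (-c) ≤ 1 / 2 := by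
    rw [Real.rpow_neg (by linarith), inv_eq_one_div]
    exact one_div_le_one_div_of_le (by norm_num) hNc
  have hNη : (0 : ℝ) ≤ N ^ η := Real.rpow_nonneg (by linarith) _
  have hZ0 : 0 ≤ Z := hNη.trans hZ
  have hV0 : 0 ≤ V := hNη.trans hV
  have hZV : 0 ≤ Z * V := mul_nonneg hZ0 hV0
  have hb := fun a b : ℕ => h N Z V hN0 hZ hZN hV hVN m hm hmc a b 0 ⌊Z⌋₊ 0 ⌊V⌋₊
    (Nat.floor_le hZ0) (Nat.floor_le hV0)
  set g : ℕ → ℕ → ℝ := fun z y =>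
    if Nat.Coprime (rad 2 y) (m * z) then ((kap 2 y ((m * z : ℕ) : ℤ) : ℝ) - 1) else 0 with hg
  have h1 : ∑ z ∈ Ioc 0 ⌊Z⌋₊, ∑ y ∈ Ioc 0 ⌊V⌋₊, g z y ≤ 2 * (Z * V) := by
    rw [UBK_split (Ioc 0 ⌊Z⌋₊)]
    have e1 : ∀ z : ℕ, ∑ y ∈ Ioc 0 ⌊V⌋₊, g z y =
        ∑ y ∈ (Ioc 0 ⌊V⌋₊).filter (fun x => x ≡ 0 [MOD 2]), g z y +
          ∑ y ∈ (Ioc 0 ⌊V⌋₊).filter (fun x => x ≡ 1 [MOD 2]), g z y := fun z =>
      UBK_split _ _
    simp only [e1, Finset.sum_add_distrib]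
    have h00 := (abs_le.1 (hb 0 0)).2
    have h01 := (abs_le.1 (hb 0 1)).2
    have h10 := (abs_le.1 (hb 1 0)).2
    have h11 := (abs_le.1 (hb 1 1)).2
    have h2 : N ^ (-c) * (Z * V) ≤ 1 / 2 * (Z * V) := mul_le_mul_of_nonneg_right hNc' hZV
    linarith
  have h2 : ∑ z ∈ Ioc 0 ⌊Z⌋₊, ∑ y ∈ Ioc 0 ⌊V⌋₊, (1 : ℝ) ≤ Z * V := by
    simp only [Finset.sum_const, Nat.card_Ioc, Nat.sub_zero, nsmul_eq_mul, mul_one]
    exact mul_le_mul (Nat.floor_le hZ0) (Nat.floor_le hV0) (Nat.cast_nonneg _) hZ0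
  have h3 : ∀ z ∈ Ioc 0 ⌊Z⌋₊, ∀ y ∈ Ioc 0 ⌊V⌋₊,
      (if Nat.Coprime y (m * z) then (kap 2 y ((m * z : ℕ) : ℤ) : ℝ) else 0) ≤ 1 + g z y := by
    intro z _ y hy
    have hy1 : 1 ≤ y := (Finset.mem_Ioc.1 hy).1
    have hk : (0 : ℝ) ≤ (kap 2 y ((m * z : ℕ) : ℤ) : ℝ) := by
      exact_mod_cast (hKAP.1 2 y ((m * z : ℕ) : ℤ) hy1).1
    simp only [hg]
    by_cases hco : Nat.Coprime y (m * z)
    · rw [if_pos hco, if_pos (UBK_rad y _ hco)]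
      linarith
    · rw [if_neg hco]
      by_cases hco2 : Nat.Coprime (rad 2 y) (m * z)
      · rw [if_pos hco2]
        linarith
      · rw [if_neg hco2]
        norm_num
  have h4 : ∑ z ∈ Ioc 0 ⌊Z⌋₊, ∑ y ∈ Ioc 0 ⌊V⌋₊,
      (if Nat.Coprime y (m * z) then (kap 2 y ((m * z : ℕ) : ℤ) : ℝ) else 0) ≤
      ∑ z ∈ Ioc 0 ⌊Z⌋₊, ∑ y ∈ Ioc 0 ⌊V⌋₊, (1 + g z y) :=
    Finset.sum_le_sum fun z hz => Finset.sum_le_sum fun y hy => h3 z hz y hy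
  simp only [Finset.sum_add_distrib] at h4
  linarith

end Pool.Agent.AP
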